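import Pool.Agent.H97.QI.Basic

/-!
# Affine groups: a module extended by an abelian group
-/

namespace Pool.Agent.H97.QI

/-- The semidirect product `R ⋊ F` where the abelian group `F` acts on the additive group of the
commutative ring `R` through units. -/
@[ext]
structure Aff (R F : Type) [CommRing R] [AddCommGroup F] (θ : Multiplicative F →* Rˣ) where
  /-- the component in the ring -/
  v : R
  /-- the component in the abelian group -/
  n : F

namespace Aff

variable {R F : Type} [CommRing R] [AddCommGroup F] {θ : Multiplicative F →* Rˣ}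

/-- The action. -/
def act (θ : Multiplicative F →* Rˣ) (n : F) : R := (θ (Multiplicative.ofAdd n) : Rˣ)

lemma act_zero : act θ 0 = 1 := by simp [act]

lemma act_add (a b : F) : act θ (a + b) = act θ a * act θ b := by simp [act]

lemma act_neg_mul (a : F) : act θ (-a) * act θ a = 1 := by
  rw [← act_add, neg_add_cancel, act_zero]

lemma act_mul_neg (a : F) : act θ a * act θ (-a) = 1 := by
  rw [← act_add, add_neg_cancel, act_zero]

lemma act_nsmul (a : F) (m : ℕ) : act θ (m • a) = act θ a ^ m := by
  induction m with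
  | zero => simp [act_zero]
  | succ m ih => rw [succ_nsmul, act_add, ih, pow_succ]

instance : Mul (Aff R F θ) := ⟨fun a b => ⟨a.v + act θ a.n * b.v, a.n + b.n⟩⟩
instance : One (Aff R F θ) := ⟨⟨0, 0⟩⟩
instance : Inv (Aff R F θ) := ⟨fun a => ⟨-(act θ (-a.n) * a.v), -a.n⟩⟩

lemma mul_v (a b : Aff R F θ) : (a * b).v = a.v + act θ a.n * b.v := rfl
lemma mul_n (a b : Aff R F θ) : (a * b).n = a.n + b.n := rfl
lemma one_v : (1 : Aff R F θ).v = 0 := rfl
lemma one_n : (1 : Aff R F θ).n = 0 := rfl
lemma inv_v (a : Aff R F θ) : a⁻¹.v = -(act θ (-a.n) * a.v) := rfl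
lemma inv_n (a : Aff R F θ) : a⁻¹.n = -a.n := rfl

instance : Group (Aff R F θ) := Group.ofLeftAxioms
  (by
    intro a b c
    ext
    · simp only [mul_v, mul_n, act_add]; ring
    · simp only [mul_n]; abel)
  (by
    intro a
    ext
    · simp [mul_v, one_v, one_n, act_zero]
    · simp [mul_n, one_n])
  (by
    intro a
    ext
    · simp only [mul_v, inv_v, inv_n, one_v]; ring
    · simp [mul_n, inv_n, one_n])

/-- The projection onto the abelian group. -/
def proj : Aff R F θ →* Multiplicative F where
  toFun a := Multiplicative.ofAdd a.n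
  map_one' := rfl
  map_mul' _ _ := rfl

lemma proj_apply (a : Aff R F θ) : proj a = Multiplicative.ofAdd a.n := rfl

lemma pow_n (a : Aff R F θ) (m : ℕ) : (a ^ m).n = m • a.n := by
  induction m with
  | zero => simp [one_n]
  | succ m ih => rw [pow_succ, mul_n, ih, succ_nsmul]

lemma pow_v (a : Aff R F θ) (m : ℕ) :
    (a ^ m).v = (∑ i ∈ Finset.range m, act θ a.n ^ i) * a.v := by
  induction m with
  | zero => simp [one_v]
  | succ m ih =>
    rw [pow_succ, mul_v, ih, pow_n, act_nsmul, Finset.sum_range_succ]
    ring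

/-- The elements with trivial second component. -/
lemma conj_v (y w : Aff R F θ) (hw : w.n = 0) : (y * w * y⁻¹).v = act θ y.n * w.v := by
  simp only [mul_v, mul_n, inv_v, hw, add_zero]
  have := act_mul_neg (θ := θ) y.n
  linear_combination (-y.v) * this

lemma conj_n (y w : Aff R F θ) (hw : w.n = 0) : (y * w * y⁻¹).n = 0 := by
  simp [mul_n, inv_n, hw]

lemma mul_v_of (a b : Aff R F θ) (ha : a.n = 0) : (a * b).v = a.v + b.v := by
  rw [mul_v, ha, act_zero, one_mul]

lemma Dop_v (y w : Aff R F θ) (hw : w.n = 0) :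
    (Dop y w).v = (act θ y.n - 1) * w.v ∧ (Dop y w).n = 0 := by
  unfold Dop
  constructor
  · rw [mul_v_of _ _ (conj_n y w hw), conj_v y w hw, inv_v, hw, neg_zero, act_zero]
    ring
  · rw [mul_n, conj_n y w hw, inv_n, hw]; simp

lemma Nop_v (q : ℕ) (y w : Aff R F θ) (hw : w.n = 0) :
    (Nop q y w).v = (∑ i ∈ Finset.range q, act θ y.n ^ i) * w.v ∧ (Nop q y w).n = 0 := by
  unfold Nop
  induction q with
  | zero => simp [one_v, one_n]
  | succ q ih =>
    rw [List.range_succ, List.map_append, List.prod_append]
    simp only [List.map_cons, List.map_nil, List.prod_cons, List.prod_nil, mul_one]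
    constructor
    · rw [mul_v_of _ _ ih.2, ih.1, conj_v _ _ hw, pow_n, act_nsmul, Finset.sum_range_succ]
      ring
    · rw [mul_n, ih.2, conj_n _ _ hw, add_zero]

/-- The multiplier of a list of operators. -/
def mult (z : R) (L : List ℕ) : R := (L.map fun q => ∑ i ∈ Finset.range q, z ^ i).prod

lemma foldr_v (L : List ℕ) (y w : Aff R F θ) (hw : w.n = 0) :
    (L.foldr (fun q w => Nop q y w) w).v = mult (act θ y.n) L * w.v ∧
    (L.foldr (fun q w => Nop q y w) w).n = 0 := by
  induction L with
  | nil => simp [mult, hw]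
  | cons q L ih =>
    rw [List.foldr_cons]
    obtain ⟨h1, h2⟩ := Nop_v q y _ ih.2
    refine ⟨?_, h2⟩
    rw [h1, ih.1]
    unfold mult
    rw [List.map_cons, List.prod_cons]
    ring

lemma Bop_v (L : List ℕ) (y w : Aff R F θ) (hw : w.n = 0) :
    (Bop L y w).v = (act θ y.n - 1) * mult (act θ y.n) L * w.v ∧ (Bop L y w).n = 0 := by
  unfold Bop
  obtain ⟨h1, h2⟩ := foldr_v L y w hw
  obtain ⟨h3, h4⟩ := Dop_v y _ h2
  exact ⟨by rw [h3, h1]; ring, h4⟩

end Aff

/-! ### Torsion-free abelian groups -/

/-- A quasi-identity which holds in the infinite cyclic group holds in all torsion-free abelian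
groups. -/
lemma sat_of_abelian {q : QI} (hq : Sat (Multiplicative ℤ) q) (A : Type) [AddCommGroup A]
    (hA : ∀ (n : ℕ) (a : A), n ≠ 0 → n • a = 0 → a = 0) : Sat (Multiplicative A) q := by
  intro f hf
  by_contra hcon
  set g : Fin q.1 → A := fun i => Multiplicative.toAdd (f i) with hg
  let B : AddSubgroup A := AddSubgroup.closure (Set.range g)
  have hBmem : ∀ i, g i ∈ B := fun i => AddSubgroup.subset_closure ⟨i, rfl⟩
  let f' : Fin q.1 → Multiplicative B := fun i => Multiplicative.ofAdd ⟨g i, hBmem i⟩
  let ι : Multiplicative B →* Multiplicative A := AddMonoidHom.toMultiplicative B.subtype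
  have hι : Function.Injective ι := by
    intro a b hab
    have : B.subtype (Multiplicative.toAdd a) = B.subtype (Multiplicative.toAdd b) := hab
    exact Multiplicative.toAdd.injective (Subtype.val_injective this)
  have hιf : ι ∘ f' = f := by
    funext i; rfl
  have hfin : Module.Finite ℤ B := by
    rw [Module.Finite.iff_addGroup_fg]
    rw [AddGroup.fg_iff_addSubgroup_fg, AddSubgroup.fg_iff]
    exact ⟨_, rfl, Set.finite_range g⟩
  have htf : Module.IsTorsionFree ℤ B := by
    refine ⟨fun n hn x y hxy => ?_⟩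
    have h0 : n • (x - y) = 0 := by
      rw [smul_sub, sub_eq_zero]; exact hxy
    have hn0 : n ≠ 0 := hn.ne_zero
    have h1 : n.natAbs • ((x - y : B) : A) = 0 := by
      have h2 : n • ((x - y : B) : A) = 0 := by
        have := congrArg Subtype.val h0
        simpa using this
      rcases Int.natAbs_eq n with h | h
      · rw [h] at h2; simpa using h2
      · rw [h] at h2; simpa using h2
    have h3 := hA n.natAbs _ (by omega) h1
    exact sub_eq_zero.1 (Subtype.ext h3)
  have hfree : Module.Free ℤ B := inferInstance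
  have hne : Multiplicative.toAdd (FreeGroup.lift f' q.2.2) ≠ 0 := by
    intro h0
    apply hcon
    rw [← hιf, ← map_lift']
    have : FreeGroup.lift f' q.2.2 = 1 := h0
    rw [this, map_one]
  obtain ⟨φ, hφ⟩ : ∃ φ : Module.Dual ℤ B, φ (Multiplicative.toAdd (FreeGroup.lift f' q.2.2)) ≠ 0 := by
    by_contra hc
    push Not at hc
    exact hne ((Module.forall_dual_apply_eq_zero_iff ℤ _).1 hc)
  let Φ : Multiplicative B →* Multiplicative ℤ := AddMonoidHom.toMultiplicative φ.toAddMonoidHom
  have h5 := hq (Φ ∘ f') (by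
    intro p hp
    rw [← map_lift']
    have : FreeGroup.lift f' p = 1 := by
      apply hι
      rw [map_lift', hιf, hf p hp, map_one]
    rw [this, map_one])
  rw [← map_lift'] at h5
  exact hφ h5

end Pool.Agent.H97.QI
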