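import Mathlib

/-!
# Quasi-identities, merging, and the replacement trick
-/

namespace Pool.Agent.H97.QI

/-- A quasi-identity in `n` variables: a list of premises `u = 1` and a conclusion `u = 1`. -/
abbrev QI : Type := (n : ℕ) × (List (FreeGroup (Fin n)) × FreeGroup (Fin n))

/-- The group `H` satisfies the quasi-identity `q`. -/
def Sat (H : Type) [Group H] (q : QI) : Prop :=
  ∀ f : Fin q.1 → H, (∀ p ∈ q.2.1, FreeGroup.lift f p = 1) → FreeGroup.lift f q.2.2 = 1

lemma lift_map' {H : Type} [Group H] {α β : Type} (f : β → H) (g : α → β) (w : FreeGroup α) :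
    FreeGroup.lift f (FreeGroup.map g w) = FreeGroup.lift (f ∘ g) w := by
  have : (FreeGroup.lift f).comp (FreeGroup.map g) = FreeGroup.lift (f ∘ g) := by
    ext a; simp
  exact DFunLike.congr_fun this w

lemma map_lift' {H K : Type} [Group H] [Group K] {α : Type} (φ : H →* K) (f : α → H)
    (w : FreeGroup α) : φ (FreeGroup.lift f w) = FreeGroup.lift (φ ∘ f) w := by
  have : φ.comp (FreeGroup.lift f) = FreeGroup.lift (φ ∘ f) := by
    ext a; simp
  exact DFunLike.congr_fun this w

lemma lift_one' {H : Type} [Group H] {α : Type} (w : FreeGroup α) :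
    FreeGroup.lift (fun _ : α => (1 : H)) w = 1 := by
  have : FreeGroup.lift (fun _ : α => (1 : H)) = 1 := by
    ext a; simp
  rw [this]; rfl

/-- A quasi-identity holds in a group if it holds in an image group under an injective map. -/
lemma Sat.of_injective {H K : Type} [Group H] [Group K] {q : QI} (hq : Sat K q) (φ : H →* K)
    (hφ : Function.Injective φ) : Sat H q := by
  intro f hf
  apply hφ
  rw [map_lift', map_one]
  apply hq
  intro p hp
  rw [← map_lift', hf p hp, map_one]

/-- The conjunction of two quasi-identities. -/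
def merge (q r : QI) : QI :=
  ⟨q.1 + r.1, (q.2.1.map (FreeGroup.map (Fin.castAdd r.1)) ++
      r.2.1.map (FreeGroup.map (Fin.natAdd q.1)),
    FreeGroup.map (Fin.castAdd r.1) q.2.2 * FreeGroup.map (Fin.natAdd q.1) r.2.2)⟩

lemma sat_merge_aux {H : Type} [Group H] {n m : ℕ} {A : List (FreeGroup (Fin n))}
    {u : FreeGroup (Fin n)} {B : List (FreeGroup (Fin m))} {v : FreeGroup (Fin m)} :
    (∀ f : Fin (n + m) → H,
      (∀ p ∈ A.map (FreeGroup.map (Fin.castAdd m)) ++ B.map (FreeGroup.map (Fin.natAdd n)),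
        FreeGroup.lift f p = 1) →
      FreeGroup.lift f (FreeGroup.map (Fin.castAdd m) u * FreeGroup.map (Fin.natAdd n) v) = 1) ↔
    (∀ f : Fin n → H, (∀ p ∈ A, FreeGroup.lift f p = 1) → FreeGroup.lift f u = 1) ∧
    (∀ f : Fin m → H, (∀ p ∈ B, FreeGroup.lift f p = 1) → FreeGroup.lift f v = 1) := by
  constructor
  · intro h
    constructor
    · intro f hf
      set g : Fin (n + m) → H := fun i => Fin.addCases f (fun _ => 1) i with hg
      have e1 : g ∘ Fin.castAdd m = f := by
        funext i; simp [hg]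
      have e2 : g ∘ Fin.natAdd n = fun _ => 1 := by
        funext i; simp [hg]
      have h1 := h g ?_
      · rw [map_mul, lift_map', lift_map', e1, e2, lift_one', mul_one] at h1
        exact h1
      · intro p hp
        rw [List.mem_append, List.mem_map, List.mem_map] at hp
        rcases hp with ⟨a, ha, rfl⟩ | ⟨a, ha, rfl⟩
        · rw [lift_map', e1]
          exact hf a ha
        · rw [lift_map', e2, lift_one']
    · intro f hf
      set g : Fin (n + m) → H := fun i => Fin.addCases (fun _ => 1) f i with hg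
      have e1 : g ∘ Fin.castAdd m = fun _ => 1 := by
        funext i; simp [hg]
      have e2 : g ∘ Fin.natAdd n = f := by
        funext i; simp [hg]
      have h1 := h g ?_
      · rw [map_mul, lift_map', lift_map', e1, e2, lift_one', one_mul] at h1
        exact h1
      · intro p hp
        rw [List.mem_append, List.mem_map, List.mem_map] at hp
        rcases hp with ⟨a, ha, rfl⟩ | ⟨a, ha, rfl⟩
        · rw [lift_map', e1, lift_one']
        · rw [lift_map', e2]
          exact hf a ha
  · rintro ⟨h1, h2⟩ f hf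
    rw [map_mul, lift_map', lift_map', h1, h2, one_mul]
    · intro p hp
      have := hf (FreeGroup.map (Fin.natAdd n) p) (by
        rw [List.mem_append, List.mem_map, List.mem_map]
        exact Or.inr ⟨p, hp, rfl⟩)
      rwa [lift_map'] at this
    · intro p hp
      have := hf (FreeGroup.map (Fin.castAdd m) p) (by
        rw [List.mem_append, List.mem_map, List.mem_map]
        exact Or.inl ⟨p, hp, rfl⟩)
      rwa [lift_map'] at this

lemma sat_merge {H : Type} [Group H] {q r : QI} : Sat H (merge q r) ↔ Sat H q ∧ Sat H r :=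
  sat_merge_aux

/-- The conjunction of a list of quasi-identities. -/
def mergeList : List QI → QI
  | [] => ⟨0, ([], 1)⟩
  | q :: L => merge q (mergeList L)

lemma sat_mergeList {H : Type} [Group H] {L : List QI} :
    Sat H (mergeList L) ↔ ∀ q ∈ L, Sat H q := by
  induction L with
  | nil =>
    simp only [mergeList, List.not_mem_nil, false_imp_iff, implies_true, iff_true]
    intro f _
    simp
  | cons q L ih =>
    rw [mergeList, sat_merge, ih]
    simp

/-- Uniqueness of `p`-th roots, as a quasi-identity. -/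
def tau (p : ℕ) : QI := ⟨2, ([FreeGroup.of 0 ^ p * (FreeGroup.of 1 ^ p)⁻¹],
  FreeGroup.of 0 * (FreeGroup.of 1)⁻¹)⟩

lemma sat_tau_iff {H : Type} [Group H] {p : ℕ} :
    Sat H (tau p) ↔ ∀ f : Fin 2 → H,
      (∀ w ∈ [FreeGroup.of (0 : Fin 2) ^ p * (FreeGroup.of (1 : Fin 2) ^ p)⁻¹],
        FreeGroup.lift f w = 1) →
      FreeGroup.lift f (FreeGroup.of (0 : Fin 2) * (FreeGroup.of (1 : Fin 2))⁻¹) = 1 := Iff.rfl

lemma sat_tau {H : Type} [Group H] {p : ℕ} :
    Sat H (tau p) ↔ ∀ x y : H, x ^ p = y ^ p → x = y := by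
  rw [sat_tau_iff]
  constructor
  · intro h x y hxy
    have := h ![x, y] (by
      intro w hw
      rw [List.mem_singleton] at hw
      rw [hw]
      simp [hxy])
    simpa [mul_inv_eq_one] using this
  · intro h f hf
    have h1 := hf _ (List.mem_singleton.2 rfl)
    simp only [map_mul, map_inv, map_pow, FreeGroup.lift_apply_of, mul_inv_eq_one] at h1
    simp only [map_mul, map_inv, FreeGroup.lift_apply_of, mul_inv_eq_one]
    exact h _ _ h1

/-! ### Operators on group elements -/

section Ops

variable {H : Type} [Group H]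

/-- `(y - 1) w` in module notation. -/
def Dop (y w : H) : H := y * w * y⁻¹ * w⁻¹

/-- `(1 + y + ... + y ^ (q - 1)) w` in module notation. -/
def Nop (q : ℕ) (y w : H) : H := ((List.range q).map fun i => y ^ i * w * (y ^ i)⁻¹).prod

/-- The composition of `Dop y` with all `Nop q y`, `q ∈ L`. -/
def Bop (L : List ℕ) (y w : H) : H := Dop y (L.foldr (fun q w => Nop q y w) w)

lemma Nop_one (q : ℕ) (y : H) : Nop q y 1 = 1 := by
  unfold Nop
  apply List.prod_eq_one
  intro x hx
  simp only [List.mem_map] at hx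
  obtain ⟨i, _, rfl⟩ := hx
  simp

lemma foldr_one (L : List ℕ) (y : H) : L.foldr (fun q w => Nop q y w) (1 : H) = 1 := by
  induction L with
  | nil => rfl
  | cons q L ih => rw [List.foldr_cons, ih, Nop_one]

lemma Bop_one (L : List ℕ) (y : H) : Bop L y 1 = 1 := by
  unfold Bop Dop
  rw [foldr_one]
  group

lemma map_Nop {K : Type} [Group K] (φ : H →* K) (q : ℕ) (y w : H) :
    φ (Nop q y w) = Nop q (φ y) (φ w) := by
  unfold Nop
  rw [map_list_prod, List.map_map]
  congr 1
  apply List.map_congr_left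
  intro i _
  simp

lemma map_foldr {K : Type} [Group K] (φ : H →* K) (L : List ℕ) (y w : H) :
    φ (L.foldr (fun q w => Nop q y w) w) = L.foldr (fun q w => Nop q (φ y) w) (φ w) := by
  induction L with
  | nil => rfl
  | cons q L ih => rw [List.foldr_cons, map_Nop, ih, List.foldr_cons]

lemma map_Bop {K : Type} [Group K] (φ : H →* K) (L : List ℕ) (y w : H) :
    φ (Bop L y w) = Bop L (φ y) (φ w) := by
  unfold Bop Dop
  rw [map_mul, map_mul, map_mul, map_inv, map_inv, map_foldr]

end Ops

/-- The word `b_{p,j}`. -/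
def bword (Ms : List ℕ) (q : QI) (p : ℕ) (j : Fin q.1) : FreeGroup (Fin q.1) :=
  Bop (Ms.filter (· ≠ p)) (FreeGroup.of j) q.2.2

/-- First replacement. -/
def rep1 (Ms : List ℕ) (q : QI) (p : ℕ) (j : Fin q.1) : QI :=
  ⟨q.1, (q.2.1, (bword Ms q p j * FreeGroup.of j) ^ p * (FreeGroup.of j ^ p)⁻¹)⟩

/-- Second replacement. -/
def rep2 (Ms : List ℕ) (q : QI) : QI :=
  ⟨q.1, (q.2.1 ++ Ms.flatMap fun p => (List.finRange q.1).map fun j => bword Ms q p j, q.2.2)⟩

lemma sat_rep1_iff {H : Type} [Group H] {Ms : List ℕ} {q : QI} {p : ℕ} {j : Fin q.1} :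
    Sat H (rep1 Ms q p j) ↔ ∀ f : Fin q.1 → H, (∀ w ∈ q.2.1, FreeGroup.lift f w = 1) →
      FreeGroup.lift f ((bword Ms q p j * FreeGroup.of j) ^ p * (FreeGroup.of j ^ p)⁻¹) = 1 :=
  Iff.rfl

lemma sat_rep2_iff {H : Type} [Group H] {Ms : List ℕ} {q : QI} :
    Sat H (rep2 Ms q) ↔ ∀ f : Fin q.1 → H,
      (∀ w ∈ q.2.1 ++ Ms.flatMap fun p => (List.finRange q.1).map fun j => bword Ms q p j,
        FreeGroup.lift f w = 1) → FreeGroup.lift f q.2.2 = 1 := Iff.rfl

/-- The replacement of the quasi-identity `q` relative to the finite set `Ms` of primes. -/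
def rep (Ms : List ℕ) (q : QI) : QI :=
  mergeList (rep2 Ms q :: Ms.flatMap fun p => (List.finRange q.1).map fun j => rep1 Ms q p j)

lemma sat_rep {H : Type} [Group H] {Ms : List ℕ} {q : QI} :
    Sat H (rep Ms q) ↔ Sat H (rep2 Ms q) ∧ ∀ p ∈ Ms, ∀ j, Sat H (rep1 Ms q p j) := by
  unfold rep
  rw [sat_mergeList]
  simp only [List.mem_cons, List.mem_flatMap, List.mem_map, List.mem_finRange, true_and]
  constructor
  · intro h
    exact ⟨h _ (Or.inl rfl), fun p hp j => h _ (Or.inr ⟨p, hp, j, rfl⟩)⟩
  · rintro ⟨h1, h2⟩ r (rfl | ⟨p, hp, j, rfl⟩)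
    · exact h1
    · exact h2 p hp j

lemma lift_bword {H : Type} [Group H] (Ms : List ℕ) (q : QI) (p : ℕ) (j : Fin q.1)
    (f : Fin q.1 → H) : FreeGroup.lift f (bword Ms q p j) =
      Bop (Ms.filter (· ≠ p)) (f j) (FreeGroup.lift f q.2.2) := by
  unfold bword
  rw [map_Bop, FreeGroup.lift_apply_of]

/-- The replacement is a consequence of the quasi-identity. -/
lemma Sat.rep {H : Type} [Group H] {q : QI} (h : Sat H q) (Ms : List ℕ) : Sat H (rep Ms q) := by
  rw [sat_rep]
  constructor
  · rw [sat_rep2_iff]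
    intro f hf
    exact h f fun p hp => hf p (List.mem_append_left _ hp)
  · intro p _ j
    rw [sat_rep1_iff]
    intro f hf
    have h1 : FreeGroup.lift f q.2.2 = 1 := h f hf
    rw [map_mul, map_pow, map_inv, map_pow, map_mul, lift_bword, h1, Bop_one]
    simp

/-- The replacement implies the quasi-identity, given uniqueness of `p`-th roots for `p ∈ Ms`. -/
lemma sat_of_rep {H : Type} [Group H] {q : QI} {Ms : List ℕ} (h : Sat H (QI.rep Ms q))
    (hM : ∀ p ∈ Ms, Sat H (tau p)) : Sat H q := by
  rw [sat_rep] at h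
  obtain ⟨h2, h1⟩ := h
  intro f hf
  have hb : ∀ p ∈ Ms, ∀ j, FreeGroup.lift f (bword Ms q p j) = 1 := by
    intro p hp j
    have h3 := sat_rep1_iff.1 (h1 p hp j) f hf
    rw [map_mul, map_pow, map_inv, map_pow, map_mul, mul_inv_eq_one] at h3
    have h4 := sat_tau.1 (hM p hp) _ _ h3
    exact mul_eq_right.1 h4
  refine sat_rep2_iff.1 h2 f ?_
  intro w hw
  simp only [List.mem_append, List.mem_flatMap, List.mem_map, List.mem_finRange,
    true_and] at hw
  rcases hw with hw | ⟨p, hp, j, rfl⟩
  · exact hf w hw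
  · exact hb p hp j

end Pool.Agent.H97.QI
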